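import Pool.Agent.H93.Hup.Grp

/-!
# Huppert's conjecture for groups that involve the simple group

Let `H` be a finite nonabelian simple group and `G` a finite group.  Let `b(G)` be the largest
dimension of an irreducible complex representation of `G`.  Suppose that `b(G) = b(H)` (for example
`cd(G) = cd(H)`), and that one of the two groups is isomorphic to a section of the other.  Then the
derived subgroup `G'` is perfect and `G' / Φ(G') ≅ H`, where `Φ(G')` is the Frattini subgroup of
`G'` (a nilpotent group); the primes dividing `|G'|` divide `|H|`; and if `G` is the section then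
`G ≅ H`.

If `H` is isomorphic to a subgroup of `G`, or to the quotient of `G` by a normal Hall subgroup, then
moreover `G' ≅ H`, the centralizer of `G'` is the center of `G`, and the conclusion of Huppert's
conjecture, `G ≅ H × A` with `A` abelian, holds if `G` is perfect, or `H` is a quotient of `G`, or
all automorphisms of `H` are inner, or `G = G' Z(G)`.

The classification of the finite simple groups is not used.  The main point: an irreducible
representation `W` of a subgroup `K`, whose dimension bounds all dimensions for `G`, extends to `G`;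
all irreducible subrepresentations of `W ⊗ ℂ[G / K]` restrict to `W` on `K`; hence the character of
`W` vanishes outside the normal core of `K`, and `G / K` is abelian if `K` is normal.  This is
applied to a minimal subgroup `K` of `G` that has `H` as a quotient.
-/

namespace Pool.Agent.Results.MP_90f4c8_al.HuppertInvolved

open CategoryTheory Module Pool.Agent.H93.Hup

/-- The largest dimension of an irreducible complex representation. -/
noncomputable def maxDeg (G : Type) [Group G] : ℕ :=
  sSup {n : ℕ | ∃ V : FDRep ℂ G, Simple V ∧ finrank ℂ V = n}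

private theorem maxDeg_bdd (G : Type) [Group G] [Finite G] :
    BddAbove {n : ℕ | ∃ V : FDRep ℂ G, Simple V ∧ finrank ℂ V = n} := by
  refine ⟨Nat.card G, ?_⟩
  rintro n ⟨V, hV, rfl⟩
  exact Pool.Agent.H13.finrank_le_card V

private theorem maxDeg_ne (G : Type) [Group G] [Finite G] :
    {n : ℕ | ∃ V : FDRep ℂ G, Simple V ∧ finrank ℂ V = n}.Nonempty := by
  obtain ⟨V, hV, _⟩ := Pool.Agent.H13.exists_simple_apply_ne_zero (1 : MonoidAlgebra ℂ G)
    one_ne_zero
  exact ⟨finrank ℂ V, V, hV, rfl⟩

private theorem degLe_of_le {G H : Type} [Group G] [Group H] [Finite G] [Finite H]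
    (h : maxDeg G ≤ maxDeg H) : DegLe G H := by
  intro V hV
  obtain ⟨W, hW, hWn⟩ := Nat.sSup_mem (maxDeg_ne H) (maxDeg_bdd H)
  refine ⟨W, hW, ?_⟩
  rw [hWn]
  exact (le_csSup (maxDeg_bdd G) ⟨V, hV, rfl⟩).trans h

/-- The center as a commutative group. -/
@[reducible] private def centerComm (G : Type) [Group G] : CommGroup (Subgroup.center G) :=
  { (inferInstance : Group (Subgroup.center G)) with
    mul_comm := fun a b => Subtype.ext (Subgroup.mem_center_iff.mp b.2 a) }

/-- Huppert's conjecture for groups that involve the simple group. -/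
theorem result (G H : Type) [Group G] [Group H] [Finite G] [Finite H]
    -- `H` is a nonabelian simple group
    (hsimple : IsSimpleGroup H) (hna : ¬ ∀ a b : H, a * b = b * a)
    -- the largest irreducible degrees agree
    (hdeg : maxDeg G = maxDeg H)
    -- one of the two groups is a section of the other
    (hsec : (∃ (K : Subgroup G) (π : K →* H), Function.Surjective π) ∨
      ∃ (K : Subgroup H) (π : K →* G), Function.Surjective π) :
    -- the derived subgroup is perfect and is a Frattini cover of `H`
    commutator (commutator G) = ⊤ ∧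
    Nonempty (commutator G ⧸ frattini (commutator G) ≃* H) ∧
    (∀ p : ℕ, p.Prime → p ∣ Nat.card (commutator G) → p ∣ Nat.card H) ∧
    -- if `G` is a section of `H`, the groups are isomorphic
    ((∃ (K : Subgroup H) (π : K →* G), Function.Surjective π) → Nonempty (G ≃* H)) ∧
    -- if `H` is a subgroup of `G` or the quotient by a normal Hall subgroup ...
    ((∃ f : H →* G, Function.Injective f) ∨
        (∃ π : G →* H, Function.Surjective π ∧ Nat.Coprime (Nat.card π.ker) (Nat.card H)) →
      Nonempty (commutator G ≃* H) ∧
      Subgroup.centralizer (commutator G : Set G) = Subgroup.center G ∧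
      -- ... and one of four further conditions holds, the group is a direct product
      (commutator G = ⊤ ∨ (∃ π : G →* H, Function.Surjective π) ∨
          (∀ φ : H ≃* H, ∃ h : H, ∀ x, φ x = h * x * h⁻¹) ∨
          commutator G ⊔ Subgroup.center G = ⊤ →
        ∃ (A : Type) (_ : CommGroup A), Nonempty (G ≃* H × A))) := by
  have hb : DegLe G H := degLe_of_le hdeg.le
  have hb' : DegLe H G := degLe_of_le hdeg.ge
  have hiso : (∃ (K : Subgroup H) (π : K →* G), Function.Surjective π) → Nonempty (G ≃* H) :=
    fun ⟨K, π, hπ⟩ => sub_case hna hb' K π hπ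
  obtain ⟨K, π, hπ⟩ : ∃ (K : Subgroup G) (π : K →* H), Function.Surjective π := by
    rcases hsec with h | h
    · exact h
    · obtain ⟨e⟩ := hiso h
      exact ⟨⊤, e.toMonoidHom.comp (Subgroup.topEquiv (G := G)).toMonoidHom,
        e.surjective.comp (Subgroup.topEquiv (G := G)).surjective⟩
  obtain ⟨h1, ⟨e⟩⟩ := frattini_case hna hb K π hπ
  refine ⟨h1, ⟨e⟩, fun p hp hd => prime_dvd_of_frattini e p hp hd, hiso, ?_⟩
  intro h
  obtain ⟨f, hf⟩ : ∃ f : H →* G, Function.Injective f := by
    rcases h with h | ⟨π', hπ', hc⟩
    · exact h
    · exact exists_section_of_coprime π' hπ' hc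
  have hcomm := commutator_eq_range hna hb f hf
  refine ⟨?_, ?_, ?_⟩
  · rw [hcomm]
    exact ⟨(MonoidHom.ofInjective hf).symm⟩
  · rw [hcomm]
    exact centralizer_eq_center hna hb f hf
  · intro h
    refine ⟨Subgroup.center G, centerComm G, ?_⟩
    rcases h with h | ⟨π', hπ'⟩ | h | h
    · apply product_of_inner hna hb f hf
      intro g
      have h1 : g ∈ f.range := by
        rw [← hcomm, h]; trivial
      obtain ⟨h, rfl⟩ := h1
      exact ⟨h, fun x => by rw [map_mul, map_mul, map_inv]⟩
    · exact product_of_quotient hna hb π' hπ' f hf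
    · exact product_of_complete hna hb f hf h
    · apply product_of_inner hna hb f hf
      intro g
      have h1 : g ∈ commutator G ⊔ Subgroup.center G := by rw [h]; trivial
      rw [Subgroup.mem_sup_of_normal_left, hcomm] at h1
      obtain ⟨_, ⟨x, rfl⟩, z, hz, rfl⟩ := h1
      refine ⟨x, fun y => ?_⟩
      have h2 : f y * z = z * f y := Subgroup.mem_center_iff.mp hz (f y)
      calc f x * z * f y * (f x * z)⁻¹ = f x * (z * f y) * z⁻¹ * (f x)⁻¹ := by group
        _ = f x * (f y * z) * z⁻¹ * (f x)⁻¹ := by rw [h2]
        _ = f (x * y * x⁻¹) := by rw [map_mul, map_mul, map_inv]; group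

end Pool.Agent.Results.MP_90f4c8_al.HuppertInvolved
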